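import Pool.Agent.W221.NS.Stm2
import Pool.Agent.W398.MD.FLOWX

/-! # ME-FLOWX2: existence of the flow for uniformly Lipschitz fields (helper398) -/

set_option autoImplicit false

open MeasureTheory Set Metric
open scoped ContDiff NNReal

namespace W398.ME.FLOWX2

open H459R3.NS W221.NS W398.MD.FLOWX

theorem flow_aux2 {U : ℝ → V → V} {α β : ℝ} (hαβ : α < β) {M L : ℝ≥0}
    (hU : ContDiffOn ℝ ∞ (fun z : ℝ × V => U z.1 z.2) (Icc α β ×ˢ univ))
    (hM : ∀ t ∈ Icc α β, ∀ x, ‖U t x‖ ≤ M) (hL : ∀ t ∈ Icc α β, LipschitzWith L (U t)) :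
    ∃ X : ℝ → V → V, Flow2 U α β X := by
  set D : ℝ := β - α with hD
  have hD0 : 0 < D := by rw [hD]; linarith
  set W : ℝ → V → V := fun τ y => -U (β - τ) y with hW
  have hmap : ∀ τ ∈ Icc 0 D, β - τ ∈ Icc α β := by
    intro τ hτ
    rw [hD] at hτ
    exact ⟨by linarith [hτ.2], by linarith [hτ.1]⟩
  have hmap' : ∀ t ∈ Icc α β, β - t ∈ Icc 0 D := by
    intro t ht
    rw [hD]
    exact ⟨by linarith [ht.2], by linarith [ht.1]⟩
  have hWM : ∀ t ∈ Icc 0 D, ∀ x, ‖W t x‖ ≤ M := by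
    intro t ht x
    rw [hW]
    simp only [norm_neg]
    exact hM _ (hmap t ht) x
  have hWL : ∀ t ∈ Icc 0 D, LipschitzWith L (W t) := fun t ht => (hL _ (hmap t ht)).neg
  have hWc : ContDiffOn ℝ ∞ (Function.uncurry W) (Icc 0 D ×ˢ univ) := by
    have h1 : ContDiffOn ℝ ∞ (fun z : ℝ × V => (β - z.1, z.2)) (Icc 0 D ×ˢ univ) :=
      ((contDiff_const.sub contDiff_fst).prodMk contDiff_snd).contDiffOn
    have h2 : MapsTo (fun z : ℝ × V => (β - z.1, z.2)) (Icc 0 D ×ˢ univ) (Icc α β ×ˢ univ) :=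
      fun z hz => ⟨hmap _ hz.1, trivial⟩
    exact (hU.comp h1 h2).neg
  -- the solutions
  have hex : ∀ x : V, ∃ z : ℝ → V, z 0 = x ∧
      ∀ t ∈ Icc 0 D, HasDerivWithinAt z (W t (z t)) (Icc 0 D) t := by
    intro x
    have hPL : IsPicardLindelof W (⟨0, ⟨le_rfl, hD0.le⟩⟩ : Icc 0 D) x (M * ⟨D, hD0.le⟩) 0 M L := by
      refine ⟨fun t ht => (hWL t ht).lipschitzOnWith, fun y _ => ?_, fun t ht y _ => hWM t ht y, ?_⟩
      · have h3 : ContinuousOn (fun t : ℝ => (t, y)) (Icc 0 D) := by fun_prop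
        exact hWc.continuousOn.comp h3 (fun t ht => ⟨ht, trivial⟩)
      · simp only [sub_zero, sub_self, NNReal.coe_zero]
        rw [max_eq_left hD0.le]
        exact le_rfl
    obtain ⟨z, hz0, hz⟩ := hPL.exists_eq_forall_mem_Icc_hasDerivWithinAt₀
    exact ⟨z, hz0, hz⟩
  choose Z hZ0 hZ using hex
  have hlipx : ∀ x y : V, ∀ t ∈ Icc 0 D, dist (Z x t) (Z y t) ≤ dist x y * Real.exp (L * D) := by
    intro x y t ht
    have h1 := gron hWL (hZ x) (hZ y) t ht
    rw [hZ0, hZ0] at h1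
    refine h1.trans (mul_le_mul_of_nonneg_left (Real.exp_le_exp.2 ?_) dist_nonneg)
    rw [sub_zero]
    exact mul_le_mul_of_nonneg_left ht.2 L.2
  refine ⟨fun t x => Z x (β - t), ?_, ?_, ?_, ?_⟩
  · -- continuity
    set C : ℝ≥0 := M + ⟨Real.exp (L * D), (Real.exp_pos _).le⟩ with hC
    have : LipschitzOnWith C (fun z : ℝ × V => Z z.2 (β - z.1)) (Icc α β ×ˢ univ) := by
      refine LipschitzOnWith.of_dist_le_mul fun p hp p' hp' => ?_
      have h1 := lip_time hWM (hZ p.2) _ (hmap' _ hp.1) _ (hmap' _ hp'.1)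
      have h2 := hlipx p.2 p'.2 _ (hmap' _ hp'.1)
      have h3 : dist p.1 p'.1 ≤ dist p p' := by rw [Prod.dist_eq]; exact le_max_left _ _
      have h4 : dist p.2 p'.2 ≤ dist p p' := by rw [Prod.dist_eq]; exact le_max_right _ _
      have h5 : |β - p.1 - (β - p'.1)| = dist p.1 p'.1 := by
        rw [Real.dist_eq, abs_sub_comm]
        congr 1
        ring
      rw [h5] at h1
      have h6 : (C : ℝ) = M + Real.exp (L * D) := by rw [hC]; rfl
      calc dist (Z p.2 (β - p.1)) (Z p'.2 (β - p'.1)) ≤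
          dist (Z p.2 (β - p.1)) (Z p.2 (β - p'.1)) +
            dist (Z p.2 (β - p'.1)) (Z p'.2 (β - p'.1)) := dist_triangle _ _ _
        _ ≤ M * dist p.1 p'.1 + dist p.2 p'.2 * Real.exp (L * D) := add_le_add h1 h2
        _ ≤ M * dist p p' + dist p p' * Real.exp (L * D) := by
          gcongr
        _ = C * dist p p' := by rw [h6]; ring
    exact this.continuousOn
  · intro x
    simp only [sub_self]
    exact hZ0 x
  · intro x t ht
    have ht' : β - t ∈ Ioo 0 D := by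
      rw [hD]
      exact ⟨by linarith [ht.2], by linarith [ht.1]⟩
    have h1 : HasDerivAt (Z x) (W (β - t) (Z x (β - t))) (β - t) :=
      (hZ x _ (Ioo_subset_Icc_self ht')).hasDerivAt (Icc_mem_nhds ht'.1 ht'.2)
    have h2 := h1.comp_const_sub β t
    have h3 : -W (β - t) (Z x (β - t)) = U t (Z x (β - t)) := by
      rw [hW]
      simp only [neg_neg, sub_sub_cancel]
    rw [h3] at h2
    exact h2
  · intro x
    have h1 : ContDiffOn ℝ ((⊤ : ℕ∞) : WithTop ℕ∞) (Z x) (Icc 0 D) :=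
      ODE.contDiffOn_enat_Icc_of_hasDerivWithinAt (n := ⊤) (u := univ) hWc (hZ x)
        (fun _ _ => trivial)
    have h2 : ContDiffOn ℝ ∞ (fun τ : ℝ => β - τ) (Ioo α β) :=
      (contDiff_const.sub contDiff_id).contDiffOn
    exact h1.comp h2 (fun t ht => hmap' t (Ioo_subset_Icc_self ht))

theorem opnorm_le {D : V →L[ℝ] V} {L : ℝ} (hL : 0 ≤ L)
    (h : ∀ i j, |D (Pi.single j (1 : ℝ)) i| ≤ L) : ‖D‖ ≤ 3 * L := by
  refine ContinuousLinearMap.opNorm_le_bound _ (by positivity) fun v => ?_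
  refine (pi_norm_le_iff_of_nonneg (by positivity)).2 fun i => ?_
  have hv : v = ∑ j : Fin 3, v j • (Pi.single j (1 : ℝ) : V) := by
    funext k
    rw [Finset.sum_apply]
    simp [Pi.single_apply]
  have h1 : D v i = ∑ j : Fin 3, v j * D (Pi.single j (1 : ℝ)) i := by
    conv_lhs => rw [hv]
    rw [map_sum, Finset.sum_apply]
    refine Finset.sum_congr rfl fun j _ => ?_
    rw [map_smul]
    rfl
  rw [Real.norm_eq_abs, h1]
  calc |∑ j : Fin 3, v j * D (Pi.single j (1 : ℝ)) i|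
      ≤ ∑ j : Fin 3, |v j * D (Pi.single j (1 : ℝ)) i| := Finset.abs_sum_le_sum_abs _ _
    _ ≤ ∑ _j : Fin 3, ‖v‖ * L := by
        refine Finset.sum_le_sum fun j _ => ?_
        rw [abs_mul]
        exact mul_le_mul (norm_le_pi_norm v j) (h i j) (abs_nonneg _) (norm_nonneg _)
    _ = 3 * L * ‖v‖ := by
        rw [Finset.sum_const, Finset.card_univ, Fintype.card_fin, nsmul_eq_mul]
        push_cast
        ring

theorem t_FLOWX2 : S_FLOWX2 := by
  intro T M L κ U hG α β hα hαβ hβ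
  have hU := hG.smooth
  have hsub : Icc α β ⊆ Ioo 0 T := fun t ht => ⟨hα.trans_le ht.1, ht.2.trans_lt hβ⟩
  have hopen : IsOpen (Ioo 0 T ×ˢ (univ : Set V)) := isOpen_Ioo.prod isOpen_univ
  set F : ℝ × V → V := fun z => U z.1 z.2 with hF
  have hα' : α ∈ Ioo 0 T := hsub ⟨le_rfl, hαβ.le⟩
  have hL0 : 0 ≤ L := (abs_nonneg _).trans (hG.lip α hα' 0 0 0)
  have hFd : ∀ t ∈ Ioo 0 T, ∀ x : V, HasFDerivAt F (fderiv ℝ F (t, x)) (t, x) := by
    intro t ht x
    have h1 : (t, x) ∈ Ioo 0 T ×ˢ (univ : Set V) := ⟨ht, trivial⟩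
    exact ((hU.differentiableOn (by norm_cast)) _ h1).differentiableAt
      (hopen.mem_nhds h1) |>.hasFDerivAt
  have hUd : ∀ t ∈ Ioo 0 T, ∀ x : V, HasFDerivAt (U t)
      ((fderiv ℝ F (t, x)).comp (ContinuousLinearMap.inr ℝ ℝ V)) x := by
    intro t ht x
    exact (hFd t ht x).comp x (hasFDerivAt_prodMk_right t x)
  have hM' : ∀ t ∈ Icc α β, ∀ x, ‖U t x‖ ≤ (M.toNNReal : ℝ≥0) :=
    fun t ht x => (hG.bd t (hsub ht) x).trans (Real.le_coe_toNNReal M)
  have hL' : ∀ t ∈ Icc α β, LipschitzWith (3 * L).toNNReal (U t) := by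
    intro t ht
    refine lipschitzWith_of_nnnorm_fderiv_le (fun x => (hUd t (hsub ht) x).differentiableAt) ?_
    intro x
    rw [← NNReal.coe_le_coe, coe_nnnorm, Real.coe_toNNReal _ (by positivity)]
    refine opnorm_le hL0 fun i j => ?_
    have h1 := (hUd t (hsub ht) x).differentiableAt.hasFDerivAt
    have h2 := hasFDerivAt_pi'.1 h1 i
    have h3 := hG.lip t (hsub ht) x i j
    unfold pd at h3
    rw [h2.fderiv] at h3
    exact h3
  exact flow_aux2 hαβ (hU.mono fun z hz => ⟨hsub hz.1, trivial⟩) hM' hL'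

end W398.ME.FLOWX2
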